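import Pool.Agent.H67.HM.Stm2

open Polynomial MeasureTheory Filter Topology

namespace HM

/-- one step -/
theorem dlt_step (N k : ℕ) (hk : 1 ≤ k) (hkN : k ≤ N) (c : ℂ) :
    (dlt fun S : Finset (Fin N) => if S.card = k then c else 0) =
      fun S => if S.card = k - 1 then ((N - k + 1 : ℕ) : ℂ) * c else 0 := by
  funext S
  unfold dlt
  have h1 : ∀ l ∈ Sᶜ, (if (insert l S).card = k then c else 0) =
      if S.card = k - 1 then c else 0 := by
    intro l hl
    rw [Finset.mem_compl] at hl
    rw [Finset.card_insert_of_notMem hl]
    have : S.card + 1 = k ↔ S.card = k - 1 := by omega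
    simp only [this]
  rw [Finset.sum_congr rfl h1, Finset.sum_const, nsmul_eq_mul]
  split_ifs with h
  · have hc : (Sᶜ).card = N - k + 1 := by
      rw [Finset.card_compl, Fintype.card_fin, h]
      omega
    rw [hc]
  · rw [mul_zero]

theorem DEL_proved : S_DEL := by
  intro N i j
  induction j with
  | zero =>
    intro _ hi
    funext S
    simp only [Function.iterate_zero, id_eq, Nat.sub_zero, add_zero]
    have : (((N - i).factorial : ℂ) / ((N - i).factorial : ℂ)) = 1 :=
      div_self (by exact_mod_cast Nat.factorial_ne_zero _)
    rw [this]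
  | succ j ih =>
    intro hj hi
    rw [Function.iterate_succ_apply', ih (by omega) hi, dlt_step N (i - j) (by omega) (by omega)]
    funext S
    have e1 : i - j - 1 = i - (j + 1) := by omega
    have e2 : N - (i - j) + 1 = N - i + j + 1 := by omega
    have e3 : N - i + (j + 1) = (N - i + j) + 1 := by omega
    rw [e1, e2, e3, Nat.factorial_succ]
    push_cast
    split_ifs
    · ring
    · rfl

end HM
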