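import Pool.Agent.H67.HM.Stm2

open Polynomial MeasureTheory Filter Topology

namespace HM

theorem RID_proved : S_RID := by
  intro A γ b c f D n hD
  induction n with
  | zero =>
    simp only [zero_add, Finset.sum_range_one, pow_zero, one_mul, Finset.sum_range_zero, mul_zero,
      sub_zero, hD]
    ring
  | succ n ih =>
    rw [Finset.sum_range_succ, Finset.sum_range_succ (fun i => A * (-(A * c)) ^ i * f * D (i + 1)),
      Finset.sum_range_succ (fun i => (-(A * c)) ^ i * f * (b * D (i + 1) - D i))]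
    rw [pow_succ (-(A * c)) n]
    linear_combination ih

theorem TEL_proved : S_TEL := by
  intro A γ b a Ti Td r t₀ hT
  obtain ⟨q, hq⟩ : ∃ q : RR, q = algebraMap ℂ RR (-1 / 4) := ⟨_, rfl⟩
  have h4 : (4 : RR) * q = -1 := by
    rw [hq, ← map_ofNat (algebraMap ℂ RR) 4, ← map_mul]
    norm_num
  have e0 : (4 : ℂ) • Td = 4 * Td := by
    rw [Algebra.smul_def, map_ofNat]
  have e1 : ∀ (t : ℕ) (x : RR), ((-1 / 4 : ℂ) ^ t) • x = q ^ t * x := by
    intro t x
    rw [Algebra.smul_def, map_pow, hq]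
  have e2 : ∀ (t : ℕ) (x : RR), ((-1 / 4 : ℂ) ^ t / 4) • x = -(q ^ (t + 1) * x) := by
    intro t x
    have : ((-1 / 4 : ℂ) ^ t / 4) = -((-1 / 4) ^ (t + 1)) := by ring
    rw [this, neg_smul, e1]
  simp only [e0, e1, e2]
  induction t₀ with
  | zero => simp
  | succ t ih =>
    rw [Finset.sum_range_succ, Finset.sum_range_succ (fun t =>
      -(q ^ (t + 1) * (Ti ^ (t + 1) * (1 + γ * a * b) ^ t * r)) +
          q ^ t * (Ti ^ t * (1 + γ * a * b) ^ t * r))]
    rw [pow_succ (1 + γ * a * b) t, pow_succ q t, pow_succ Ti t]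
    generalize (1 + γ * a * b) ^ t = w at ih ⊢
    linear_combination ih + (A * a * q ^ t * Ti ^ t * w * r) * h4 +
      (A * a * q ^ t * Ti ^ t * w * r * 4 * q) * hT

end HM
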